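import Pool.Agent.Helper43.FM.B2

set_option autoImplicit false

/-!
# Project FN, piece Z5: windows of a world
-/

namespace Pool.Agent.Helper18.FN

open Finset
open Pool.Agent.Helper3.Thin (dig und off Lab GoodSet)
open Pool.Agent.Helper53.WR
open Pool.Agent.Helper48.FB (win crossF Cs Fs dens)
open Pool.Agent.Helper43.FM (und_div' window_two' le_window_Z mem_win_world')

set_option maxRecDepth 20000 in
/-- FN-Z5 (windows of a world). -/
theorem world_win4 {q : ℕ} [Fact q.Prime] (Γ : Finset (ZMod q × ZMod q)) (T : Finset ℕ)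
    (S K La L : ℕ) (V : ℕ → ℕ) (hV : Antitone V) (τ : ZMod q × ZMod q → ZMod q × ZMod q)
    (σ : (ZMod q × ZMod q) × (ZMod q × ZMod q) → ℕ) (hσ : ∀ p, σ p < S)
    (hs : ∀ c m z : ℕ, 1 ≤ m → ((Γ ×ˢ Γ).filter (fun p =>
        (c ≤ (p.2 + τ p.1).2.val + (p.2 + τ p.1).1.val * q ∧
          (p.2 + τ p.1).2.val + (p.2 + τ p.1).1.val * q < c + m) ∧
            ∃ t ∈ T, S + σ p + t = z)).card * S
              ≤ 3 * (K * (m + La) * V (z + 1 - 2 * S)) + L * S)
    (y h : ℕ) (hh : h ≤ q ^ 4) :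
    (win (World Γ T S τ σ) y h).card * S ≤
      4096 * (2 * (3 * (K * (h / q ^ 2 + 2 + La) * V (y / q ^ 4 - 514 - 2 * S)) + L * S)) := by
  classical
  have hq : 0 < q := (Fact.out : q.Prime).pos
  have hq4 : 0 < q ^ 4 := by positivity
  have hq2 : 0 < q ^ 2 := by positivity
  set m := h / q ^ 2 + 2 with hm
  have hm1 : 1 ≤ m := by rw [hm]; exact Nat.le_add_left _ _
  set hi : (ZMod q × ZMod q) × (ZMod q × ZMod q) → ℕ :=
    fun p => (p.2 + τ p.1).2.val + (p.2 + τ p.1).1.val * q with hhi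
  set c : Lab → ℕ := fun ε => ((y + (q ^ 4 * off q ε - off q ε)) % q ^ 4) / q ^ 2 with hc
  set Z1 : Lab → ℕ := fun ε => (y + (q ^ 4 * off q ε - off q ε)) / q ^ 4 - off q ε with hZ1
  set Z2 : Lab → ℕ := fun ε => (y + (q ^ 4 * off q ε - off q ε)) / q ^ 4 + 1 - off q ε with hZ2
  set F : Lab → Finset ((ZMod q × ZMod q) × (ZMod q × ZMod q)) := fun ε =>
    ((Γ ×ˢ Γ).filter (fun p => (c ε ≤ hi p ∧ hi p < c ε + m) ∧ ∃ t ∈ T, S + σ p + t = Z1 ε)) ∪
      ((Γ ×ˢ Γ).filter (fun p => (0 ≤ hi p ∧ hi p < 0 + m) ∧ ∃ t ∈ T, S + σ p + t = Z2 ε))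
    with hF
  set g : Lab → ((ZMod q × ZMod q) × (ZMod q × ZMod q)) → ℕ := fun ε p =>
    y + (und p.1 (p.2 + τ p.1) + off q ε + (q ^ 4 * y - y)) % q ^ 4 with hg
  have hsub : win (World Γ T S τ σ) y h ⊆
      (univ : Finset Lab).biUnion (fun ε => (F ε).image (g ε)) := by
    intro b hb
    obtain ⟨p, ε, t, hpΓ, htT, hpb, hb1, hb2⟩ := mem_win_world' hb
    unfold elt at hpb
    rw [mem_biUnion]
    refine ⟨ε, mem_univ _, ?_⟩
    rw [mem_image]
    have hv : und p.1 (p.2 + τ p.1) < q ^ 4 := Pool.Agent.Helper3.Thin.und_lt _ _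
    refine ⟨p, ?_, ?_⟩
    · have key := window_two' (Q := q ^ 4) (d := q ^ 2) (v := und p.1 (p.2 + τ p.1))
        (o := off q ε) (Z := S + σ p + t) (y := y) (h := h) hq2 hq4 hv hh
        (by rw [hpb]; exact hb1) (by rw [hpb]; exact hb2)
      rw [und_div'] at key
      rw [hF]
      simp only [mem_union, mem_filter]
      rcases key with k | k
      · exact Or.inl ⟨hpΓ, k.2, t, htT, k.1⟩
      · exact Or.inr ⟨hpΓ, k.2, t, htT, k.1⟩
    · rw [hg]
      simp only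
      have hy : y ≤ q ^ 4 * y := Nat.le_mul_of_pos_left _ hq4
      have hby : b - y < q ^ 4 := by omega
      have e1 : (und p.1 (p.2 + τ p.1) + off q ε + (q ^ 4 * y - y)) + q ^ 4 * (S + σ p + t)
          = (b - y) + q ^ 4 * y := by omega
      have e2 : (und p.1 (p.2 + τ p.1) + off q ε + (q ^ 4 * y - y)) % q ^ 4 = b - y := by
        rw [← Nat.add_mul_mod_self_left (und p.1 (p.2 + τ p.1) + off q ε + (q ^ 4 * y - y))
          (q ^ 4) (S + σ p + t), e1, Nat.add_mul_mod_self_left, Nat.mod_eq_of_lt hby]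
      rw [e2]
      omega
  set B := 3 * (K * (m + La) * V (y / q ^ 4 - 514 - 2 * S)) + L * S with hB
  have hcard : ∀ ε ∈ (univ : Finset Lab), ((F ε).image (g ε)).card * S ≤ 2 * B := by
    intro ε _
    have ho : off q ε ≤ 513 * q ^ 4 :=
      Pool.Agent.Helper3.Thin.off_le q (Fact.out : q.Prime).two_le ε
    have hz : y / q ^ 4 ≤ Z1 ε + 514 := le_window_Z hq4 ho
    have hz2 : Z1 ε ≤ Z2 ε := by
      rw [hZ1, hZ2]; simp only; omega
    have hv1 : V (Z1 ε + 1 - 2 * S) ≤ V (y / q ^ 4 - 514 - 2 * S) := hV (by omega)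
    have hv2 : V (Z2 ε + 1 - 2 * S) ≤ V (y / q ^ 4 - 514 - 2 * S) := hV (by omega)
    have a1 : ((Γ ×ˢ Γ).filter (fun p => (c ε ≤ hi p ∧ hi p < c ε + m) ∧
        ∃ t ∈ T, S + σ p + t = Z1 ε)).card * S ≤ 3 * (K * (m + La) * V (Z1 ε + 1 - 2 * S)) + L * S :=
      hs (c ε) m (Z1 ε) hm1
    have a2 : ((Γ ×ˢ Γ).filter (fun p => (0 ≤ hi p ∧ hi p < 0 + m) ∧
        ∃ t ∈ T, S + σ p + t = Z2 ε)).card * S ≤ 3 * (K * (m + La) * V (Z2 ε + 1 - 2 * S)) + L * S :=
      hs 0 m (Z2 ε) hm1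
    have b1 : 3 * (K * (m + La) * V (Z1 ε + 1 - 2 * S)) + L * S ≤ B := by
      rw [hB]; gcongr
    have b2 : 3 * (K * (m + La) * V (Z2 ε + 1 - 2 * S)) + L * S ≤ B := by
      rw [hB]; gcongr
    have hc1 : ((F ε).image (g ε)).card ≤
        ((Γ ×ˢ Γ).filter (fun p => (c ε ≤ hi p ∧ hi p < c ε + m) ∧
          ∃ t ∈ T, S + σ p + t = Z1 ε)).card +
        ((Γ ×ˢ Γ).filter (fun p => (0 ≤ hi p ∧ hi p < 0 + m) ∧
          ∃ t ∈ T, S + σ p + t = Z2 ε)).card :=
      card_image_le.trans (card_union_le _ _)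
    calc ((F ε).image (g ε)).card * S ≤ _ * S := Nat.mul_le_mul_right _ hc1
      _ ≤ B + B := by
        rw [Nat.add_mul]
        exact Nat.add_le_add (a1.trans b1) (a2.trans b2)
      _ = 2 * B := by ring
  calc (win (World Γ T S τ σ) y h).card * S
      ≤ ((univ : Finset Lab).biUnion (fun ε => (F ε).image (g ε))).card * S :=
        Nat.mul_le_mul_right _ (card_le_card hsub)
    _ ≤ (∑ ε : Lab, ((F ε).image (g ε)).card) * S := Nat.mul_le_mul_right _ card_biUnion_le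
    _ = ∑ ε : Lab, ((F ε).image (g ε)).card * S := by rw [Finset.sum_mul]
    _ ≤ ∑ _ε : Lab, 2 * B := Finset.sum_le_sum hcard
    _ = 4096 * (2 * B) := by
        rw [Finset.sum_const, card_univ, Pool.Agent.Helper3.Thin.card_Lab, smul_eq_mul]

end Pool.Agent.Helper18.FN
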